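import Pool.Agent.N798.S2.Stm

set_option autoImplicit false

/-!
Project S2 (helper798), task TI: linear sums.
-/

namespace Pool.Agent.N521.S2

open Finset Filter Topology
open Pool.Agent.H376R2.MR (er)
open Pool.Agent.N798.S2 (phE)

theorem norm_er (τ x : ℝ) : ‖er τ x‖ = 1 := by
  unfold er
  rw [Complex.norm_exp_ofReal_mul_I]

theorem er_add (x y : ℝ) : er 1 (x + y) = er 1 x * er 1 y := by
  unfold er
  rw [← Complex.exp_add]
  congr 1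
  push_cast
  ring

theorem phE_mul {J : ℕ} (τ : ℝ) (g : Fin J → ℝ) {m l : ℕ} (hm : 1 ≤ m) (hl : 1 ≤ l) :
    phE τ g (m * l) = er 1 (τ * Real.log m) *
      er 1 (τ * Real.log l + ∑ i, g i / (m : ℝ) ^ ((i : ℕ) + 1) / (l : ℝ) ^ ((i : ℕ) + 1)) := by
  have hm0 : (m : ℝ) ≠ 0 := by exact_mod_cast (by omega : m ≠ 0)
  have hl0 : (l : ℝ) ≠ 0 := by exact_mod_cast (by omega : l ≠ 0)
  unfold phE
  rw [← er_add]
  congr 1
  have h1 : ∀ i : Fin J, g i / ((m * l : ℕ) : ℝ) ^ ((i : ℕ) + 1) =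
      g i / (m : ℝ) ^ ((i : ℕ) + 1) / (l : ℝ) ^ ((i : ℕ) + 1) := by
    intro i
    push_cast
    rw [mul_pow, div_div]
  rw [Finset.sum_congr rfl fun i _ => h1 i]
  push_cast
  rw [Real.log_mul hm0 hl0]
  ring

/-- powers of logarithms are small -/
theorem ev (K : ℕ) : ∀ᶠ N : ℕ in atTop, (Real.log N) ^ K ≤ (N : ℝ) ^ (3 / 5 : ℝ) := by
  have h1 : (fun x : ℝ => Real.log x ^ K) =o[atTop] fun x => x ^ (3 / 5 : ℝ) := by
    have h := isLittleO_log_rpow_rpow_atTop (s := (3 / 5 : ℝ)) (K : ℝ) (by norm_num)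
    refine h.congr' ?_ (Eventually.of_forall fun x => rfl)
    filter_upwards with x
    rw [Real.rpow_natCast]
  have h2 := h1.bound (c := 1) one_pos
  have h3 := tendsto_natCast_atTop_atTop (R := ℝ) |>.eventually h2
  filter_upwards [h3, eventually_ge_atTop 1] with N hN hN1
  rw [one_mul, Real.norm_of_nonneg (by positivity), Real.norm_of_nonneg (by positivity)] at hN
  exact hN

/-- **TI.** -/
theorem ti (h : Pool.Agent.N798.S.S_BL) : Pool.Agent.N798.S2.S_TI := by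
  intro J A K
  obtain ⟨K', C₀, hC₀, hBL⟩ := h J (2 * A + J) K
  obtain ⟨N₀, hN₀⟩ := eventually_atTop.1 ((ev K).and (eventually_ge_atTop 1024))
  refine ⟨K', 2 * (Real.log (N₀ + 2 : ℕ)) ^ K + C₀ * 2 ^ K + 1, by positivity, ?_⟩
  intro N N' U τ g hN hNN hN2 hU hUN hτ hg hlarge m hm b hb
  rw [mem_Icc] at hm
  obtain ⟨hm1, hm2⟩ := hm
  have hNr : (2 : ℝ) ≤ N := by exact_mod_cast hN
  have hN0 : (0 : ℝ) < N := by linarith
  have hlog : 0 < Real.log N := Real.log_pos (by linarith)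
  have hm0 : (0 : ℝ) < m := by exact_mod_cast hm1
  have hNm : 0 < (N : ℝ) / m := by positivity
  set E := Real.log (N₀ + 2 : ℕ) with hE
  have hE0 : 0 ≤ E := Real.log_nonneg (by push_cast; linarith [Nat.cast_nonneg (α := ℝ) N₀])
  -- the trivial bound
  have hbr : (b : ℝ) ≤ 2 * ((N : ℝ) / m) := by
    have h1 : (b : ℝ) ≤ ((N' / m : ℕ) : ℝ) := by exact_mod_cast hb
    have h2 : ((N' / m : ℕ) : ℝ) ≤ (N' : ℝ) / m := Nat.cast_div_le
    have h3 : (N' : ℝ) ≤ 2 * N := by exact_mod_cast hN2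
    have h4 : (N' : ℝ) / m ≤ 2 * N / m := by gcongr
    rw [mul_div_assoc] at h4
    linarith
  have hnorm : ∀ n : ℕ, ‖phE τ g n‖ = 1 := fun n => norm_er _ _
  have htriv : ‖∑ l ∈ Ioc (N / m) b, phE τ g (m * l)‖ ≤ 2 * ((N : ℝ) / m) := by
    refine (norm_sum_le _ _).trans ?_
    simp only [hnorm, sum_const, nsmul_eq_mul, mul_one, Nat.card_Ioc]
    refine le_trans ?_ hbr
    exact_mod_cast Nat.sub_le _ _
  rcases lt_or_ge N N₀ with hs | hs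
  · -- small `N`
    refine htriv.trans ?_
    rw [le_div_iff₀ (by positivity)]
    have h1 : Real.log N ≤ E := by
      apply Real.log_le_log hN0
      exact_mod_cast (by omega : N ≤ N₀ + 2)
    have h2 : Real.log N ^ K ≤ E ^ K := by gcongr
    have h3 : 0 ≤ C₀ * 2 ^ K + 1 := by positivity
    have h4 : 0 ≤ (C₀ * 2 ^ K + 1) * ((N : ℝ) / m) := by positivity
    have h5 : 2 * ((N : ℝ) / m) * Real.log N ^ K ≤ 2 * ((N : ℝ) / m) * E ^ K := by gcongr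
    have e : (2 * E ^ K + C₀ * 2 ^ K + 1) * ((N : ℝ) / m) =
      2 * ((N : ℝ) / m) * E ^ K + (C₀ * 2 ^ K + 1) * ((N : ℝ) / m) := by ring
    rw [e]
    linarith
  obtain ⟨hev, hN4⟩ := hN₀ N hs
  have hNr4 : (1024 : ℝ) ≤ N := by exact_mod_cast hN4
  -- the size of `m`
  have hmN : (m : ℝ) ≤ (N : ℝ) ^ (2 / 5 : ℝ) := by
    have h1 : (m : ℝ) ≤ (U : ℝ) * U := by exact_mod_cast hm2
    have h2 : (U : ℝ) * U ≤ (N : ℝ) ^ (1 / 5 : ℝ) * (N : ℝ) ^ (1 / 5 : ℝ) := by gcongr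
    have h3 : (N : ℝ) ^ (1 / 5 : ℝ) * (N : ℝ) ^ (1 / 5 : ℝ) = (N : ℝ) ^ (2 / 5 : ℝ) := by
      rw [← Real.rpow_add hN0]
      norm_num
    linarith
  have hq : (N : ℝ) ^ (3 / 5 : ℝ) ≤ (N : ℝ) / m := by
    rw [le_div_iff₀ hm0]
    have h3 : (N : ℝ) ^ (3 / 5 : ℝ) * (N : ℝ) ^ (2 / 5 : ℝ) = N := by
      rw [← Real.rpow_add hN0]
      norm_num
    calc (N : ℝ) ^ (3 / 5 : ℝ) * m ≤ (N : ℝ) ^ (3 / 5 : ℝ) * (N : ℝ) ^ (2 / 5 : ℝ) := by gcongr
      _ = N := h3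
  have h64 : (64 : ℝ) ≤ (N : ℝ) ^ (3 / 5 : ℝ) := by
    have h1 : (1024 : ℝ) ^ (3 / 5 : ℝ) ≤ (N : ℝ) ^ (3 / 5 : ℝ) := by gcongr
    have h2 : (1024 : ℝ) ^ (3 / 5 : ℝ) = 64 := by
      rw [show (1024 : ℝ) = 4 ^ (5 : ℝ) by norm_num, ← Real.rpow_mul (by norm_num)]
      norm_num
    linarith
  have h4N : (4 : ℝ) ≤ (N : ℝ) ^ (1 / 5 : ℝ) := by
    have h1 : (1024 : ℝ) ^ (1 / 5 : ℝ) ≤ (N : ℝ) ^ (1 / 5 : ℝ) := by gcongr
    have h2 : (1024 : ℝ) ^ (1 / 5 : ℝ) = 4 := by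
      rw [show (1024 : ℝ) = 4 ^ (5 : ℝ) by norm_num, ← Real.rpow_mul (by norm_num)]
      norm_num
    linarith
  set N1 := N / m with hN1
  have c1 : (N1 : ℝ) ≤ (N : ℝ) / m := Nat.cast_div_le
  have c2 : (N : ℝ) / m < N1 + 1 := by
    rw [div_lt_iff₀ hm0]
    have h1 : N < m * (N / m + 1) := Nat.lt_mul_div_succ N (by omega)
    have h2 : (N : ℝ) < m * ((N1 : ℝ) + 1) := by
      rw [hN1]
      exact_mod_cast h1
    linarith
  have c3 : (N : ℝ) / m ≤ 2 * N1 := by linarith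
  have c4 : (32 : ℝ) ≤ N1 := by linarith
  have c5 : 2 ≤ N1 := by exact_mod_cast (by linarith : (2 : ℝ) ≤ N1)
  have c6 : (N : ℝ) ≤ (N1 : ℝ) ^ 2 := by
    have h1 : (N : ℝ) ^ (3 / 5 : ℝ) / 2 ≤ N1 := by linarith
    have h2 : ((N : ℝ) ^ (3 / 5 : ℝ) / 2) ^ 2 ≤ (N1 : ℝ) ^ 2 := by gcongr
    have h3 : ((N : ℝ) ^ (3 / 5 : ℝ) / 2) ^ 2 = N * (N : ℝ) ^ (1 / 5 : ℝ) / 4 := by
      rw [div_pow, ← Real.rpow_natCast, ← Real.rpow_mul hN0.le]
      have : (N : ℝ) ^ ((3 / 5 : ℝ) * (2 : ℕ)) = N * (N : ℝ) ^ (1 / 5 : ℝ) := by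
        rw [← Real.rpow_one_add' hN0.le (by norm_num)]
        norm_num
      rw [this]
      norm_num
    have h4 : N * 4 / 4 ≤ N * (N : ℝ) ^ (1 / 5 : ℝ) / 4 := by gcongr
    linarith
  have hN1pos : (0 : ℝ) < N1 := by linarith
  have hlogN1 : Real.log N ≤ 2 * Real.log N1 := by
    have h1 := Real.log_le_log hN0 c6
    rw [Real.log_pow] at h1
    push_cast at h1
    exact h1
  have hlogN1' : Real.log N1 ≤ Real.log N := by
    apply Real.log_le_log hN1pos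
    refine c1.trans (div_le_self hN0.le ?_)
    exact_mod_cast hm1
  have hlogN1p : 0 < Real.log N1 := Real.log_pos (by linarith)
  -- the final bound for the two parts
  have hfin : C₀ * N1 / (Real.log N1) ^ K + 1 ≤
      (2 * E ^ K + C₀ * 2 ^ K + 1) * ((N : ℝ) / m) / (Real.log N) ^ K := by
    have h1 : C₀ * N1 / (Real.log N1) ^ K ≤ (C₀ * 2 ^ K) * ((N : ℝ) / m) / (Real.log N) ^ K := by
      rw [div_le_div_iff₀ (by positivity) (by positivity)]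
      have h2 : (Real.log N) ^ K ≤ 2 ^ K * (Real.log N1) ^ K := by
        rw [← mul_pow]
        gcongr
      calc C₀ * N1 * Real.log N ^ K ≤ C₀ * ((N : ℝ) / m) * (2 ^ K * (Real.log N1) ^ K) := by
            gcongr
        _ = _ := by ring
    have h2 : 1 ≤ ((N : ℝ) / m) / (Real.log N) ^ K := by
      rw [le_div_iff₀ (by positivity), one_mul]
      linarith
    have h3 : 0 ≤ 2 * E ^ K * ((N : ℝ) / m) / (Real.log N) ^ K := by positivity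
    have e : (2 * E ^ K + C₀ * 2 ^ K + 1) * ((N : ℝ) / m) / (Real.log N) ^ K =
        2 * E ^ K * ((N : ℝ) / m) / (Real.log N) ^ K +
        (C₀ * 2 ^ K) * ((N : ℝ) / m) / (Real.log N) ^ K + ((N : ℝ) / m) / (Real.log N) ^ K := by
      ring
    rw [e]
    linarith
  refine le_trans ?_ hfin
  have hbound0 : 0 ≤ C₀ * N1 / (Real.log N1) ^ K := by positivity
  rcases lt_or_ge b N1 with hbN | hbN
  · rw [Ioc_eq_empty (by omega), sum_empty, norm_zero]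
    linarith
  -- the phases
  set g' : Fin J → ℝ := fun i => g i / (m : ℝ) ^ ((i : ℕ) + 1) with hg'
  have hsum : ∀ b' : ℕ, ‖∑ l ∈ Ioc N1 b', phE τ g (m * l)‖ =
      ‖∑ l ∈ Ioc N1 b', er 1 (τ * Real.log l + ∑ i, g' i / (l : ℝ) ^ ((i : ℕ) + 1))‖ := by
    intro b'
    have h1 : ∑ l ∈ Ioc N1 b', phE τ g (m * l) = er 1 (τ * Real.log m) *
        ∑ l ∈ Ioc N1 b', er 1 (τ * Real.log l + ∑ i, g' i / (l : ℝ) ^ ((i : ℕ) + 1)) := by
      rw [mul_sum]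
      refine sum_congr rfl fun l hl => ?_
      rw [mem_Ioc] at hl
      exact phE_mul τ g hm1 (by omega)
    rw [h1, norm_mul, norm_er, one_mul]
  have hmN1 : (m : ℝ) * N1 ≤ N := by
    have := mul_le_mul_of_nonneg_left c1 hm0.le
    rwa [mul_div_cancel₀ _ hm0.ne'] at this
  have hmN1' : (N : ℝ) ≤ 2 * (m * N1) := by
    rw [div_le_iff₀ hm0] at c3
    linarith
  have hgabs : ∀ i, |g' i| / (N1 : ℝ) ^ ((i : ℕ) + 1) = |g i| / ((m : ℝ) * N1) ^ ((i : ℕ) + 1) := by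
    intro i
    rw [hg']
    simp only
    rw [abs_div, abs_of_pos (by positivity : (0 : ℝ) < (m : ℝ) ^ ((i : ℕ) + 1)), div_div, mul_pow]
  have hNA : (N : ℝ) ^ A ≤ (N1 : ℝ) ^ (2 * A) := by
    rw [pow_mul]
    gcongr
  have hA1 : |τ| ≤ (N1 : ℝ) ^ (2 * A + J) := by
    refine hτ.trans (hNA.trans ?_)
    exact pow_le_pow_right₀ (by linarith) (by omega)
  have hA2 : ∀ i, |g' i| / (N1 : ℝ) ^ ((i : ℕ) + 1) ≤ (N1 : ℝ) ^ (2 * A + J) := by
    intro i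
    rw [hgabs]
    have h1 : |g i| / ((m : ℝ) * N1) ^ ((i : ℕ) + 1) ≤
        2 ^ ((i : ℕ) + 1) * (|g i| / (N : ℝ) ^ ((i : ℕ) + 1)) := by
      rw [← mul_div_assoc, div_le_div_iff₀ (by positivity) (by positivity)]
      have h2 : (N : ℝ) ^ ((i : ℕ) + 1) ≤ 2 ^ ((i : ℕ) + 1) * ((m : ℝ) * N1) ^ ((i : ℕ) + 1) := by
        rw [← mul_pow]
        gcongr
      calc |g i| * (N : ℝ) ^ ((i : ℕ) + 1) ≤
          |g i| * (2 ^ ((i : ℕ) + 1) * ((m : ℝ) * N1) ^ ((i : ℕ) + 1)) := by gcongr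
        _ = _ := by ring
    have h2 : (2 : ℝ) ^ ((i : ℕ) + 1) ≤ (N1 : ℝ) ^ J := by
      calc (2 : ℝ) ^ ((i : ℕ) + 1) ≤ 2 ^ J := pow_le_pow_right₀ (by norm_num) i.2
        _ ≤ (N1 : ℝ) ^ J := by
          gcongr
          linarith
    refine h1.trans ?_
    calc (2 : ℝ) ^ ((i : ℕ) + 1) * (|g i| / (N : ℝ) ^ ((i : ℕ) + 1))
        ≤ (N1 : ℝ) ^ J * (N1 : ℝ) ^ (2 * A) := by
          gcongr
          exact (hg i).trans hNA
      _ = (N1 : ℝ) ^ (2 * A + J) := by rw [← pow_add, add_comm]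
  have hA3 : ∃ i, (Real.log N1) ^ K' ≤ |g' i| / (N1 : ℝ) ^ ((i : ℕ) + 1) := by
    obtain ⟨i, hi⟩ := hlarge
    refine ⟨i, ?_⟩
    rw [hgabs]
    have h1 : (Real.log N1) ^ K' ≤ (Real.log N) ^ K' := by gcongr
    have h2 : |g i| / (N : ℝ) ^ ((i : ℕ) + 1) ≤ |g i| / ((m : ℝ) * N1) ^ ((i : ℕ) + 1) := by
      gcongr
    linarith
  have hmain : ∀ b' : ℕ, N1 ≤ b' → b' ≤ 2 * N1 →
      ‖∑ l ∈ Ioc N1 b', phE τ g (m * l)‖ ≤ C₀ * N1 / (Real.log N1) ^ K := by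
    intro b' h1 h2
    rw [hsum]
    exact hBL N1 b' τ g' c5 h1 h2 hA1 hA2 (Or.inr hA3)
  have hb2 : b ≤ 2 * N1 + 1 := by
    have h1 : (b : ℝ) < 2 * N1 + 2 := by linarith
    have h2 : b < 2 * N1 + 2 := by exact_mod_cast h1
    omega
  rcases Nat.lt_or_ge (2 * N1) b with hb3 | hb3
  · have hbe : b = 2 * N1 + 1 := by omega
    rw [hbe, ← Finset.insert_Ioc_right_eq_Ioc_add_one (by omega), sum_insert (by simp)]
    refine (norm_add_le _ _).trans ?_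
    rw [hnorm]
    have := hmain (2 * N1) (by omega) le_rfl
    linarith
  · have := hmain b hbN hb3
    linarith

end Pool.Agent.N521.S2
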